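import Mathlib

set_option autoImplicit false

namespace Pool.Agent.Results.MP_170294_an.PopovFalse

noncomputable section

open Polynomial Set
open Polynomial.Chebyshev

/-- The Hausdorff difference of `f` and `g` at `x` (parameter `α = 1`) on `[-1,1]`. -/
def hdiff (f g : ℝ → ℝ) (x : ℝ) : ℝ :=
  max (sInf ((fun ξ => max |x - ξ| |f x - g ξ|) '' Icc (-1) 1))
    (sInf ((fun ξ => max |x - ξ| |f ξ - g x|) '' Icc (-1) 1))

/-- The Hausdorff distance `r(Δ; f, g)` on `Δ = [-1,1]`. -/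
def hdist (f g : ℝ → ℝ) : ℝ := sSup (hdiff f g '' Icc (-1) 1)

/-- The best Hausdorff approximation `E_n(f)` by real polynomials of degree at most `n`. -/
def bestE (n : ℕ) (f : ℝ → ℝ) : ℝ :=
  sInf {r : ℝ | ∃ p : ℝ[X], p.natDegree ≤ n ∧ r = hdist f (fun x => p.eval x)}

/-- The class `K` of continuous convex functions `[-1,1] → [0,1]`. -/
def InK (f : ℝ → ℝ) : Prop :=
  ContinuousOn f (Icc (-1) 1) ∧ ConvexOn ℝ (Icc (-1) 1) f ∧ ∀ x ∈ Icc (-1 : ℝ) 1, f x ∈ Icc (0 : ℝ) 1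

/-! ### basic facts about the Hausdorff distance -/

lemma bdd_below1 (f g : ℝ → ℝ) (x : ℝ) :
    BddBelow ((fun ξ => max |x - ξ| |f x - g ξ|) '' Icc (-1) 1) := by
  refine ⟨0, ?_⟩
  rintro _ ⟨ξ, _, rfl⟩
  exact le_trans (abs_nonneg _) (le_max_left _ _)

lemma bdd_below2 (f g : ℝ → ℝ) (x : ℝ) :
    BddBelow ((fun ξ => max |x - ξ| |f ξ - g x|) '' Icc (-1) 1) := by
  refine ⟨0, ?_⟩
  rintro _ ⟨ξ, _, rfl⟩
  exact le_trans (abs_nonneg _) (le_max_left _ _)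

lemma ne_image (h : ℝ → ℝ) : (h '' Icc (-1) 1).Nonempty :=
  ⟨h 0, 0, ⟨by norm_num, by norm_num⟩, rfl⟩

lemma hdiff_nonneg (f g : ℝ → ℝ) (x : ℝ) : 0 ≤ hdiff f g x := by
  refine le_trans ?_ (le_max_left _ _)
  refine le_csInf (ne_image _) ?_
  rintro _ ⟨ξ, _, rfl⟩
  exact le_trans (abs_nonneg _) (le_max_left _ _)

lemma hdiff_le_diff (f g : ℝ → ℝ) {x : ℝ} (hx : x ∈ Icc (-1 : ℝ) 1) :
    hdiff f g x ≤ |f x - g x| := by
  refine max_le ?_ ?_
  · refine csInf_le_of_le (bdd_below1 f g x) ⟨x, hx, rfl⟩ ?_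
    simp
  · refine csInf_le_of_le (bdd_below2 f g x) ⟨x, hx, rfl⟩ ?_
    simp

lemma hdiff_le {f g : ℝ → ℝ} {x r : ℝ}
    (h1 : ∃ ξ ∈ Icc (-1 : ℝ) 1, |x - ξ| ≤ r ∧ |f x - g ξ| ≤ r)
    (h2 : ∃ ξ ∈ Icc (-1 : ℝ) 1, |x - ξ| ≤ r ∧ |f ξ - g x| ≤ r) : hdiff f g x ≤ r := by
  obtain ⟨ξ, hξ, ha, hb⟩ := h1
  obtain ⟨η, hη, hc, hd⟩ := h2
  refine max_le ?_ ?_
  · exact csInf_le_of_le (bdd_below1 f g x) ⟨ξ, hξ, rfl⟩ (max_le ha hb)
  · exact csInf_le_of_le (bdd_below2 f g x) ⟨η, hη, rfl⟩ (max_le hc hd)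

lemma hdist_nonneg (f g : ℝ → ℝ) : 0 ≤ hdist f g := by
  unfold hdist
  apply Real.sSup_nonneg
  rintro _ ⟨x, _, rfl⟩
  exact hdiff_nonneg f g x

lemma hdist_le {f g : ℝ → ℝ} {r : ℝ} (h : ∀ x ∈ Icc (-1 : ℝ) 1, hdiff f g x ≤ r) :
    hdist f g ≤ r := by
  refine csSup_le (ne_image _) ?_
  rintro _ ⟨x, hx, rfl⟩
  exact h x hx

lemma of_hdist_lt {f g : ℝ → ℝ} {r : ℝ} (hf : ContinuousOn f (Icc (-1) 1))
    (hg : ContinuousOn g (Icc (-1) 1)) (h : hdist f g < r) {x : ℝ} (hx : x ∈ Icc (-1 : ℝ) 1) :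
    (∃ ξ ∈ Icc (-1 : ℝ) 1, |x - ξ| < r ∧ |f x - g ξ| < r) ∧
    (∃ ξ ∈ Icc (-1 : ℝ) 1, |x - ξ| < r ∧ |f ξ - g x| < r) := by
  have hbdd : BddAbove (hdiff f g '' Icc (-1) 1) := by
    have hc : ContinuousOn (fun x => |f x - g x|) (Icc (-1) 1) := (hf.sub hg).abs
    obtain ⟨C, hC⟩ := (isCompact_Icc.image_of_continuousOn hc).bddAbove
    refine ⟨C, ?_⟩
    rintro _ ⟨y, hy, rfl⟩
    exact (hdiff_le_diff f g hy).trans (hC ⟨y, hy, rfl⟩)
  have h1 : hdiff f g x < r := lt_of_le_of_lt (le_csSup hbdd ⟨x, hx, rfl⟩) h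
  have ha := lt_of_le_of_lt (le_max_left _ _) h1
  have hb := lt_of_le_of_lt (le_max_right _ _) h1
  constructor
  · obtain ⟨_, ⟨ξ, hξ, rfl⟩, hlt⟩ := exists_lt_of_csInf_lt (ne_image _) ha
    exact ⟨ξ, hξ, lt_of_le_of_lt (le_max_left _ _) hlt, lt_of_le_of_lt (le_max_right _ _) hlt⟩
  · obtain ⟨_, ⟨ξ, hξ, rfl⟩, hlt⟩ := exists_lt_of_csInf_lt (ne_image _) hb
    exact ⟨ξ, hξ, lt_of_le_of_lt (le_max_left _ _) hlt, lt_of_le_of_lt (le_max_right _ _) hlt⟩

lemma bestE_le {n : ℕ} {f : ℝ → ℝ} (p : ℝ[X]) (hp : p.natDegree ≤ n) {r : ℝ}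
    (h : hdist f (fun x => p.eval x) ≤ r) : bestE n f ≤ r := by
  refine csInf_le_of_le ?_ ⟨p, hp, rfl⟩ h
  refine ⟨0, ?_⟩
  rintro _ ⟨q, _, rfl⟩
  exact hdist_nonneg _ _

lemma le_bestE {n : ℕ} {f : ℝ → ℝ} {r : ℝ}
    (h : ∀ p : ℝ[X], p.natDegree ≤ n → r ≤ hdist f (fun x => p.eval x)) : r ≤ bestE n f := by
  refine le_csInf ⟨_, 0, by simp, rfl⟩ ?_
  rintro _ ⟨q, hq, rfl⟩
  exact h q hq

/-! ### upper bound for `|x|` -/

/-- If an even polynomial `p` satisfies `-2r ≤ p(x) - x ≤ r` on `[0,1]` and `p(1) ≥ 1 - r`, then the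
Hausdorff distance of `p` and `|x|` is at most `r`. -/
lemma abs_upper (p : ℝ[X]) (heven : ∀ x, p.eval (-x) = p.eval x) (r : ℝ) (hr : 0 < r)
    (h1 : ∀ x ∈ Icc (0 : ℝ) 1, -(2 * r) ≤ p.eval x - x) (h2 : ∀ x ∈ Icc (0 : ℝ) 1, p.eval x - x ≤ r)
    (hr3 : ∀ x ∈ Icc (0 : ℝ) 1, 0 ≤ p.eval x)
    (h3 : 1 - r ≤ p.eval 1) : hdist (fun x => |x|) (fun x => p.eval x) ≤ r := by
  apply hdist_le
  have key : ∀ x ∈ Icc (0 : ℝ) 1,
      (∃ ξ ∈ Icc (0 : ℝ) 1, |x - ξ| ≤ r ∧ |x - p.eval ξ| ≤ r) ∧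
      (∃ ξ ∈ Icc (0 : ℝ) 1, |x - ξ| ≤ r ∧ |ξ - p.eval x| ≤ r) := by
    intro x hx
    have a1 := h1 x hx
    have a2 := h2 x hx
    have a3 := hr3 x hx
    by_cases hc : x - r ≤ p.eval x
    · have : |x - p.eval x| ≤ r := by rw [abs_le]; constructor <;> linarith
      exact ⟨⟨x, hx, by simp [hr.le], this⟩, ⟨x, hx, by simp [hr.le], this⟩⟩
    · push Not at hc
      constructor
      · -- intermediate value theorem
        have hcont : ContinuousOn (fun y => p.eval y) (Icc x (min (x + r) 1)) :=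
          p.continuous.continuousOn
        have hle : x ≤ min (x + r) 1 := le_min (by linarith) hx.2
        have hend : x - r ≤ p.eval (min (x + r) 1) := by
          rcases le_total (x + r) 1 with h | h
          · rw [min_eq_left h]
            have := h1 (x + r) ⟨by linarith [hx.1], h⟩
            linarith
          · rw [min_eq_right h]
            linarith [hx.2]
        obtain ⟨ξ, hξ, hpξ⟩ := intermediate_value_Icc hle hcont ⟨hc.le, hend⟩
        have hpξ' : p.eval ξ = x - r := hpξ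
        have hξ1 : ξ ≤ x + r := hξ.2.trans (min_le_left _ _)
        have hξ2 : ξ ≤ 1 := hξ.2.trans (min_le_right _ _)
        refine ⟨ξ, ⟨hx.1.trans hξ.1, hξ2⟩, ?_, ?_⟩
        · rw [abs_le]; constructor <;> linarith [hξ.1]
        · rw [hpξ', abs_le]; constructor <;> linarith
      · refine ⟨x - r, ⟨by linarith, by linarith [hx.2]⟩, ?_, ?_⟩
        · rw [abs_le]; constructor <;> linarith
        · rw [abs_le]; constructor <;> linarith
  intro x hx
  rcases le_total 0 x with h0 | h0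
  · obtain ⟨⟨ξ, hξ, ha, hb⟩, ⟨η, hη, hc, hd⟩⟩ := key x ⟨h0, hx.2⟩
    refine hdiff_le ⟨ξ, ⟨by linarith [hξ.1], hξ.2⟩, ha, ?_⟩ ⟨η, ⟨by linarith [hη.1], hη.2⟩, hc, ?_⟩
    · simpa [abs_of_nonneg h0] using hb
    · simpa [abs_of_nonneg hη.1] using hd
  · obtain ⟨⟨ξ, hξ, ha, hb⟩, ⟨η, hη, hc, hd⟩⟩ := key (-x) ⟨by linarith, by linarith [hx.1]⟩
    refine hdiff_le ⟨-ξ, ⟨by linarith [hξ.2], by linarith [hξ.1]⟩, ?_, ?_⟩
      ⟨-η, ⟨by linarith [hη.2], by linarith [hη.1]⟩, ?_, ?_⟩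
    · rw [← abs_neg]; convert ha using 2; ring
    · show |(|x|) - p.eval (-ξ)| ≤ r
      rw [heven, abs_of_nonpos h0]; exact hb
    · rw [← abs_neg]; convert hc using 2; ring
    · show |(|(-η)|) - p.eval x| ≤ r
      rw [abs_neg, abs_of_nonneg hη.1, ← heven x]; exact hd

/-- quadratic approximant -/
def p2 : ℝ[X] := C (1 / 12) + X ^ 2

lemma E2 (n : ℕ) (hn : 2 ≤ n) : bestE n (fun x => |x|) ≤ 1 / 12 := by
  refine bestE_le p2 ?_ (abs_upper p2 ?_ (1 / 12) (by norm_num) ?_ ?_ ?_ ?_)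
  · refine le_trans ?_ hn
    unfold p2; compute_degree
  · intro x; simp [p2]
  · intro x hx; simp only [p2, eval_add, eval_C, eval_pow, eval_X]
    nlinarith [sq_nonneg (x - 1 / 2)]
  · intro x hx; simp only [p2, eval_add, eval_C, eval_pow, eval_X]
    nlinarith [hx.1, hx.2]
  · intro x hx; simp only [p2, eval_add, eval_C, eval_pow, eval_X]; positivity
  · simp only [p2, eval_add, eval_C, eval_pow, eval_X]; norm_num

/-- quartic approximant -/
def p4 : ℝ[X] := C (47 / 1000) + C (186 / 100) * X ^ 2 - C (954 / 1000) * X ^ 4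

lemma E4 (n : ℕ) (hn : 4 ≤ n) : bestE n (fun x => |x|) ≤ 47 / 1000 := by
  refine bestE_le p4 ?_ (abs_upper p4 ?_ (47 / 1000) (by norm_num) ?_ ?_ ?_ ?_)
  · refine le_trans ?_ hn
    unfold p4; compute_degree
  · intro x
    simp only [p4, eval_add, eval_sub, eval_mul, eval_C, eval_pow, eval_X]; ring
  · intro x hx; simp only [p4, eval_add, eval_sub, eval_mul, eval_C, eval_pow, eval_X]
    have hq : 0 ≤ (x - 59 / 200) ^ 2 *
        (-(954 / 1000) * x ^ 2 - 28143 / 50000 * x + 32218689 / 20000000) := by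
      apply mul_nonneg (sq_nonneg _)
      nlinarith [hx.1, hx.2, mul_nonneg hx.1 (sub_nonneg.2 hx.2)]
    nlinarith [hx.1, hx.2]
  · intro x hx; simp only [p4, eval_add, eval_sub, eval_mul, eval_C, eval_pow, eval_X]
    have h1 : 0 ≤ (x - 806 / 1000) ^ 2 * (x + 2 * (806 / 1000)) :=
      mul_nonneg (sq_nonneg _) (by linarith [hx.1])
    have h2 : 0 ≤ 1 - 186 / 100 * x + 954 / 1000 * x ^ 3 := by nlinarith [hx.1, hx.2]
    nlinarith [mul_nonneg hx.1 h2]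
  · intro x hx; simp only [p4, eval_add, eval_sub, eval_mul, eval_C, eval_pow, eval_X]
    have h1 : x ^ 2 ≤ 1 := by nlinarith [hx.1, hx.2]
    nlinarith [sq_nonneg x, mul_nonneg (sq_nonneg x) (sub_nonneg.2 h1)]
  · simp only [p4, eval_add, eval_sub, eval_mul, eval_C, eval_pow, eval_X]; norm_num

/-! ### the competitor -/

/-- `f(x) = max(0, 1000 x - 999)` -/
def fK (x : ℝ) : ℝ := max 0 (1000 * x - 999)

lemma fK_cont : Continuous fK := by unfold fK; fun_prop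

lemma fK_mem : InK fK := by
  refine ⟨fK_cont.continuousOn, ?_, ?_⟩
  · have h1 : ConvexOn ℝ (Icc (-1 : ℝ) 1) (fun _ : ℝ => (0 : ℝ)) := convexOn_const 0 (convex_Icc _ _)
    have h2 : ConvexOn ℝ (Icc (-1 : ℝ) 1) (fun x : ℝ => 1000 * x - 999) := by
      refine ⟨convex_Icc _ _, ?_⟩
      intro x _ y _ a b _ _ hab
      simp only [smul_eq_mul]
      have : b = 1 - a := by linarith
      subst this
      nlinarith
    exact h1.sup h2
  · intro x hx
    refine ⟨le_max_left _ _, ?_⟩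
    unfold fK
    apply max_le <;> linarith [hx.2]

lemma T_mono (n : ℕ) (y Y : ℝ) (hy : 1 ≤ y) (hY : y ≤ Y) :
    (0 ≤ (T ℝ n).eval y ∧ (T ℝ n).eval y ≤ (T ℝ n).eval Y) ∧
    (0 ≤ (T ℝ (n + 1)).eval y - (T ℝ n).eval y ∧
      (T ℝ (n + 1)).eval y - (T ℝ n).eval y ≤ (T ℝ (n + 1)).eval Y - (T ℝ n).eval Y) := by
  induction n with
  | zero => simp; constructor <;> linarith
  | succ n ih =>
    obtain ⟨⟨a1, a2⟩, b1, b2⟩ := ih
    have e1 : ∀ z : ℝ, (T ℝ ((n : ℤ) + 1 + 1)).eval z =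
        2 * z * (T ℝ ((n : ℤ) + 1)).eval z - (T ℝ (n : ℤ)).eval z := by
      intro z
      have := T_add_two ℝ (n : ℤ)
      rw [show (n : ℤ) + 1 + 1 = n + 2 by ring, this]
      simp
    push_cast
    rw [e1 y, e1 Y]
    refine ⟨⟨by linarith, by linarith⟩, ?_, ?_⟩
    · nlinarith
    · have h3 : 0 ≤ (T ℝ ((n : ℤ) + 1)).eval y := by linarith
      have h4 : (T ℝ ((n : ℤ) + 1)).eval y ≤ (T ℝ ((n : ℤ) + 1)).eval Y := by linarith
      have h5 : (y - 1) * (T ℝ ((n : ℤ) + 1)).eval y ≤ (Y - 1) * (T ℝ ((n : ℤ) + 1)).eval Y :=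
        mul_le_mul (by linarith) h4 h3 (by linarith)
      nlinarith

/-- lower bound for polynomials of degree at most `N` -/
lemma lower (N : ℕ) (r : ℝ) (hr : 0 < r) (hr1 : r < 1 / 2)
    (hN : r * (T ℝ N).eval ((2 + (r + 1 / 1000)) / (2 - (r + 1 / 1000))) < 1 - r)
    (p : ℝ[X]) (hp : p.natDegree ≤ N) : r ≤ hdist fK (fun x => p.eval x) := by
  by_contra hlt
  push Not at hlt
  have hc : ContinuousOn (fun x => p.eval x) (Icc (-1) 1) := p.continuous.continuousOn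
  have hin := fun {x : ℝ} (hx : x ∈ Icc (-1 : ℝ) 1) =>
    of_hdist_lt (f := fK) (g := fun x => p.eval x) fK_cont.continuousOn hc hlt hx
  have hsmall : ∀ x ∈ Icc (-1 : ℝ) (1 - r - 1 / 1000), |p.eval x| ≤ r := by
    intro x hx
    obtain ⟨-, ξ, hξ, h1, h2⟩ := hin (x := x) ⟨hx.1, by linarith [hx.2]⟩
    have : fK ξ = 0 := by
      unfold fK
      apply max_eq_left
      have := abs_lt.1 h1
      linarith [hx.2, this.1]
    rw [this, zero_sub, abs_neg] at h2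
    exact h2.le
  obtain ⟨⟨ξ, hξ, h1, h2⟩, -⟩ := hin (x := 1) ⟨by norm_num, le_refl _⟩
  have hf1 : fK 1 = 1 := by unfold fK; norm_num
  rw [hf1] at h2
  have hξ1 : 1 - r < ξ := by have := abs_lt.1 h1; linarith [this.2]
  have hpξ : 1 - r < p.eval ξ := by have := abs_lt.1 h2; linarith [this.2]
  set b : ℝ := r + 1 / 1000 with hb
  have hbpos : 0 < 2 - b := by rw [hb]; linarith
  -- the rescaled polynomial
  set q : ℝ[X] := C (1 / r) * p.comp (C ((2 - b) / 2) * X - C (b / 2)) with hq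
  have hqe : ∀ y, q.eval y = p.eval ((2 - b) / 2 * y - b / 2) / r := by
    intro y
    rw [hq]
    simp only [eval_mul, eval_C, eval_comp, eval_sub, eval_X]
    ring
  have hqd : q.degree ≤ N := by
    rw [← natDegree_le_iff_degree_le]
    refine (natDegree_C_mul_le _ _).trans ?_
    refine natDegree_comp_le.trans ?_
    have : (C ((2 - b) / 2) * X - C (b / 2) : ℝ[X]).natDegree ≤ 1 := by compute_degree
    calc p.natDegree * _ ≤ p.natDegree * 1 := Nat.mul_le_mul_left _ this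
      _ ≤ N := by omega
  have hqb : ∀ y ∈ Icc (-1 : ℝ) 1, |q.eval y| ≤ 1 := by
    intro y hy
    rw [hqe, abs_div, abs_of_pos hr, div_le_one hr]
    apply hsmall
    constructor
    · nlinarith [hy.1]
    · nlinarith [hy.2]
  set y1 : ℝ := (2 * ξ + b) / (2 - b) with hy1
  have hy1' : (2 - b) / 2 * y1 - b / 2 = ξ := by
    rw [hy1]; field_simp; ring
  have hy1ge : 1 ≤ y1 := by
    rw [hy1, le_div_iff₀ hbpos]
    rw [hb]; linarith
  have hy1le : y1 ≤ (2 + b) / (2 - b) := by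
    rw [hy1, div_le_div_iff_of_pos_right hbpos]
    linarith [hξ.2]
  have hT := eval_iterate_derivative_le_of_forall_abs_le_one (k := 0) hy1ge hqd hqb
  simp only [Function.iterate_zero, id] at hT
  have hTm := (T_mono N y1 _ hy1ge hy1le).1.2
  rw [hqe, hy1'] at hT
  have : p.eval ξ ≤ r * (T ℝ N).eval ((2 + b) / (2 - b)) := by
    have h4 := hT.trans hTm
    rwa [div_le_iff₀' hr] at h4
  linarith

lemma T_step (k : ℕ) (y a b c : ℝ) (ha : (T ℝ (k : ℕ)).eval y = a)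
    (hb : (T ℝ ((k + 1 : ℕ) : ℤ)).eval y = b) (hc : 2 * y * b - a = c) :
    (T ℝ ((k + 2 : ℕ) : ℤ)).eval y = c := by
  have e : (T ℝ ((k : ℤ) + 2)) = 2 * X * T ℝ ((k : ℤ) + 1) - T ℝ (k : ℤ) := T_add_two ℝ (k : ℤ)
  push_cast at hb ⊢
  rw [e, ← hc, ← ha, ← hb]
  simp

lemma T7 : (85 / 1000 : ℝ) *
    (T ℝ (7 : ℕ)).eval ((2 + (85 / 1000 + 1 / 1000)) / (2 - (85 / 1000 + 1 / 1000))) <
      1 - 85 / 1000 := by
  have t0 : (T ℝ (0 : ℕ)).eval ((2 + (85 / 1000 + 1 / 1000)) / (2 - (85 / 1000 + 1 / 1000)) : ℝ) = 1 := by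
    simp
  have t1 : (T ℝ (1 : ℕ)).eval ((2 + (85 / 1000 + 1 / 1000)) / (2 - (85 / 1000 + 1 / 1000)) : ℝ) =
      (2 + (85 / 1000 + 1 / 1000)) / (2 - (85 / 1000 + 1 / 1000)) := by
    simp
  have t2 := T_step 0 _ _ _ _ t0 t1 rfl
  have t3 := T_step 1 _ _ _ _ t1 t2 rfl
  have t4 := T_step 2 _ _ _ _ t2 t3 rfl
  have t5 := T_step 3 _ _ _ _ t3 t4 rfl
  have t6 := T_step 4 _ _ _ _ t4 t5 rfl
  have t7 := T_step 5 _ _ _ _ t5 t6 rfl
  norm_num at t7 ⊢
  rw [t7]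
  norm_num

lemma T11 : (5 / 100 : ℝ) *
    (T ℝ (11 : ℕ)).eval ((2 + (5 / 100 + 1 / 1000)) / (2 - (5 / 100 + 1 / 1000))) <
      1 - 5 / 100 := by
  have hY : ((2 + (5 / 100 + 1 / 1000)) / (2 - (5 / 100 + 1 / 1000)) : ℝ) = 2051 / 1949 := by norm_num
  rw [hY]
  have t0 : (T ℝ (0 : ℕ)).eval (2051 / 1949 : ℝ) = 1 := by simp
  have t1 : (T ℝ (1 : ℕ)).eval (2051 / 1949 : ℝ) = 2051 / 1949 := by simp
  have t2 := T_step 0 (2051 / 1949) _ _ (4614601 / 3798601) t0 t1 (by norm_num)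
  have t3 := T_step 1 (2051 / 1949) _ _ (11138162651 / 7403473349) t1 t2 (by norm_num)
  have t4 := T_step 2 (2051 / 1949) _ _ (28159715221201 / 14429369557201) t2 t3 (by norm_num)
  have t5 := T_step 3 (2051 / 1949) _ _ (73201716053115251 / 28122841266984749) t3 t4 (by norm_num)
  have t6 := T_step 4 (2051 / 1949) _ _ (193305916850909419801 / 54811417629353275801) t4 t5 (by norm_num)
  have t7 := T_step 5 (2051 / 1949) _ _ (514876759121350794459851 / 106827452959609534536149) t5 t6 (by norm_num)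
  have t8 := T_step 6 (2051 / 1949) _ _ (1377732416859999585908810401 / 208206705818278982810954401) t6 t7 (by norm_num)
  have t9 := T_step 7 (2051 / 1949) _ _ (3695647001884596052211955796451 / 405794869639825737498550127549) t7 t8 (by norm_num)
  have t10 := T_step 8 (2051 / 1949) _ _ (9926088265313801719140649578993001 / 790894200928020362384674198593001) t8 t9 (by norm_num)
  have t11 := T_step 9 (2051 / 1949) _ _ (26678525667311386203386557072674725051 / 1541452797608711686287730013057758949) t9 t10 (by norm_num)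
  have t11' : (T ℝ (11 : ℕ)).eval (2051 / 1949 : ℝ) = (26678525667311386203386557072674725051 / 1541452797608711686287730013057758949) := t11
  rw [t11']
  norm_num

/-- There is a function `f` of the class `K` with `E_n(f) > E_n(|x|)` for every `2 ≤ n ≤ 11`; in
particular the assertion of Q1 is false. -/
theorem result :
    (∃ f : ℝ → ℝ, InK f ∧ ∀ n : ℕ, 2 ≤ n → n ≤ 11 → bestE n (fun x => |x|) < bestE n f) ∧
    ¬ ∀ n : ℕ, 1 ≤ n → ∀ f : ℝ → ℝ, InK f → bestE n f ≤ bestE n (fun x => |x|) := by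
  have main : ∀ n : ℕ, 2 ≤ n → n ≤ 11 → bestE n (fun x => |x|) < bestE n fK := by
    intro n hn hn'
    rcases le_or_gt 4 n with h | h
    · refine lt_of_le_of_lt (E4 n h) (lt_of_lt_of_le (by norm_num : (47 / 1000 : ℝ) < 5 / 100) ?_)
      exact le_bestE fun p hp => lower 11 (5 / 100) (by norm_num) (by norm_num) T11 p (hp.trans hn')
    · refine lt_of_le_of_lt (E2 n hn) (lt_of_lt_of_le (by norm_num : (1 / 12 : ℝ) < 85 / 1000) ?_)
      exact le_bestE fun p hp => lower 7 (85 / 1000) (by norm_num) (by norm_num) T7 p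
        (hp.trans (by omega))
  refine ⟨⟨fK, fK_mem, main⟩, fun h => ?_⟩
  have := h 2 (by norm_num) fK fK_mem
  exact absurd (main 2 le_rfl (by norm_num)) (not_lt.2 this)

end

end Pool.Agent.Results.MP_170294_an.PopovFalse
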